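import Mathlib
import Pool.Agent.LeoC.CountStmts

/-!
# Squad leoc: module REP
-/

set_option autoImplicit false

open NumberField IsDedekindDomain Module nonZeroDivisors

namespace Pool.Agent.LeoC.H65

/-- REP -/
theorem rep (hE : EvsStmt) : RepStmt := by
  classical
  intro k _ _
  obtain ⟨-, -, -, -, -, -, -, -, hnor⟩ := hE k
  have hsur := ClassGroup.mk0_surjective (R := 𝓞 k)
  choose g hg using hsur
  have hg0 : ∀ c, Ideal.absNorm (g c : Ideal (𝓞 k)) ≠ 0 := by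
    intro c
    rw [Ne, Ideal.absNorm_eq_zero_iff]
    exact nonZeroDivisors.coe_ne_zero (g c)
  refine ⟨∏ c, Ideal.absNorm (g c : Ideal (𝓞 k)), ?_, ?_⟩
  · exact Finset.prod_pos fun c _ => Nat.pos_of_ne_zero (hg0 c)
  intro I hI
  have hI' : I ∈ (Ideal (𝓞 k))⁰ := mem_nonZeroDivisors_of_ne_zero hI
  obtain ⟨c, hc⟩ : ∃ c, c = ClassGroup.mk0 (⟨I, hI'⟩ : (Ideal (𝓞 k))⁰) := ⟨_, rfl⟩
  have h1 : ClassGroup.mk0 (⟨I, hI'⟩ : (Ideal (𝓞 k))⁰) = ClassGroup.mk0 (g c) := by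
    rw [hg, hc]
  obtain ⟨β, α, hβ, hα, h2⟩ := ClassGroup.mk0_eq_mk0_iff.1 h1
  have hdvd : Ideal.absNorm (g c : Ideal (𝓞 k)) ∣ ∏ c, Ideal.absNorm (g c : Ideal (𝓞 k)) :=
    Finset.dvd_prod_of_mem _ (Finset.mem_univ c)
  have hle : Ideal.absNorm (g c : Ideal (𝓞 k)) ≤ ∏ c, Ideal.absNorm (g c : Ideal (𝓞 k)) :=
    Nat.le_of_dvd (Finset.prod_pos fun c _ => Nat.pos_of_ne_zero (hg0 c)) hdvd
  have h3 := congrArg Ideal.absNorm h2
  rw [map_mul, map_mul] at h3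
  have h4 : (Ideal.absNorm (Ideal.span {β}) : ℝ) * Ideal.absNorm I =
      Ideal.absNorm (Ideal.span {α}) * Ideal.absNorm (g c : Ideal (𝓞 k)) := by exact_mod_cast h3
  rw [← (hnor β hβ).2, ← (hnor α hα).2] at h4
  have h5 := (hnor α hα).1
  refine ⟨g c, α, β, hα, hβ, ?_, h2, ?_, ?_⟩
  · obtain ⟨t, ht⟩ := hdvd
    rw [ht, Nat.cast_mul, mul_comm]
    exact Ideal.mul_mem_left _ _ (Ideal.absNorm_mem _)
  · rw [mul_comm, h4, mul_comm]
    refine mul_le_mul_of_nonneg_right ?_ (by linarith)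
    exact_mod_cast hle
  · rw [mul_comm (Ideal.absNorm I : ℝ), h4]
    have h6 : (1 : ℝ) ≤ Ideal.absNorm (g c : Ideal (𝓞 k)) := by
      exact_mod_cast Nat.one_le_iff_ne_zero.2 (hg0 c)
    nlinarith

end Pool.Agent.LeoC.H65
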